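import Mathlib

/-!
# Every countable infinite group has a 3-tame system that is not tame

Choose an infinite `J ⊆ G` such that `{u ∈ J : u c ∈ J}` is finite for every `c ≠ 1`. Let `X` be
the set of all `x ∈ {0,1}^G` whose support is contained in some translate `g J`. Then `X` is
closed and invariant, `(0, δ_1)` is an IT-pair, and there is no IT-triple with pairwise distinct
entries.
-/

set_option autoImplicit false

namespace Pool.Agent.Results.MP_6a4cde_an.ThreeTameNotTame

open Set Topology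

universe u

/-- `J ⊆ G` is an independence set for `(U_1, …, U_n)`: for every nonempty finite `I ⊆ J` and
every `σ : I → {1, …, n}`, the intersection `⋂_{g ∈ I} g⁻¹ U_{σ(g)}` is nonempty. -/
def IsIndependenceSet {G X : Type u} [Group G] [MulAction G X] {n : ℕ} (U : Fin n → Set X)
    (J : Set G) : Prop :=
  ∀ I : Finset G, I.Nonempty → (I : Set G) ⊆ J → ∀ σ : {g // g ∈ I} → Fin n,
    (⋂ g : {g // g ∈ I}, (fun x : X => (g : G)⁻¹ • x) '' (U (σ g))).Nonempty

/-- `(x_1, …, x_n)` is an IT-tuple: for all neighbourhoods `U_i` of `x_i`, the tuple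
`(U_1, …, U_n)` has an infinite independence set. -/
def IsITTuple (G : Type u) {X : Type u} [Group G] [MulAction G X] [TopologicalSpace X] {n : ℕ}
    (x : Fin n → X) : Prop :=
  ∀ U : Fin n → Set X, (∀ i, U i ∈ 𝓝 (x i)) → ∃ J : Set G, J.Infinite ∧ IsIndependenceSet U J

/-- The system is `n`-tame: every IT-tuple of length `n` has two equal coordinates. -/
def NTame (G X : Type u) [Group G] [MulAction G X] [TopologicalSpace X] (n : ℕ) : Prop :=
  ∀ x : Fin n → X, IsITTuple G x → ∃ i j : Fin n, i ≠ j ∧ x i = x j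

section construction

variable {G : Type u} [Group G]

lemma exists_thin [Countable G] [Infinite G] :
    ∃ J : Set G, J.Infinite ∧ ∀ c : G, c ≠ 1 → {u | u ∈ J ∧ u * c ∈ J}.Finite := by
  classical
  obtain ⟨e, he⟩ := exists_surjective_nat G
  obtain ⟨f, -, hf⟩ := exists_seq_of_forall_finset_exists (α := G × ℕ) (fun _ => True)
    (fun a b => a.2 < b.2 ∧ b.1 ≠ a.1 ∧ ∀ l ≤ b.2, b.1 ≠ a.1 * e l ∧ b.1 ≠ a.1 * (e l)⁻¹)
    (by
      intro s _
      set t : ℕ := s.sup Prod.snd + 1 with ht
      obtain ⟨y, hy⟩ := Infinite.exists_notMem_finset (s.image Prod.fst ∪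
        ((s ×ˢ Finset.range (t + 1)).image (fun p => p.1.1 * e p.2) ∪
          (s ×ˢ Finset.range (t + 1)).image (fun p => p.1.1 * (e p.2)⁻¹)))
      refine ⟨(y, t), trivial, fun x hx => ⟨?_, ?_, fun l hl => ⟨?_, ?_⟩⟩⟩
      · have : x.2 ≤ s.sup Prod.snd := Finset.le_sup (f := Prod.snd) hx
        change x.2 < t
        omega
      · intro h
        exact hy (Finset.mem_union_left _ (Finset.mem_image.2 ⟨x, hx, h.symm⟩))
      · intro h
        exact hy (Finset.mem_union_right _ (Finset.mem_union_left _ (Finset.mem_image.2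
          ⟨(x, l), Finset.mem_product.2 ⟨hx, Finset.mem_range.2 (Nat.lt_succ_of_le hl)⟩,
            h.symm⟩)))
      · intro h
        exact hy (Finset.mem_union_right _ (Finset.mem_union_right _ (Finset.mem_image.2
          ⟨(x, l), Finset.mem_product.2 ⟨hx, Finset.mem_range.2 (Nat.lt_succ_of_le hl)⟩,
            h.symm⟩))))
  have hmono : StrictMono fun n => (f n).2 := fun m n hmn => (hf m n hmn).1
  have hid : ∀ n, n ≤ (f n).2 := fun n => hmono.le_apply
  have hinj : Function.Injective fun n => (f n).1 := by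
    intro m n hmn
    rcases lt_trichotomy m n with h | h | h
    · exact absurd hmn.symm (hf m n h).2.1
    · exact h
    · exact absurd hmn (hf n m h).2.1
  refine ⟨range fun n => (f n).1, infinite_range_of_injective hinj, fun c hc => ?_⟩
  obtain ⟨l, rfl⟩ := he c
  refine ((finite_lt_nat l).image fun n => (f n).1).subset ?_
  rintro u ⟨⟨m, rfl⟩, ⟨n, hn⟩⟩
  refine ⟨m, ?_, rfl⟩
  change m < l
  simp only at hn
  rcases lt_trichotomy m n with h | h | h
  · by_contra hcon
    push Not at hcon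
    exact ((hf m n h).2.2 l (hcon.trans (h.le.trans (hid n)))).1 hn
  · subst h
    exact absurd (mul_eq_left.1 hn.symm) hc
  · by_contra hcon
    push Not at hcon
    exact ((hf n m h).2.2 l (hcon.trans (hid m))).2 (by rw [hn]; group)

/-- The space of all `x ∈ {0,1}^G` with support contained in a translate of `J`. -/
def XJ (J : Set G) : Set (G → Bool) := {x | ∃ g : G, ∀ a, x a = true → g⁻¹ * a ∈ J}

/-- Thinness in terms of translates. -/
lemma thin_finite {J : Set G} (hJ : ∀ c : G, c ≠ 1 → {u | u ∈ J ∧ u * c ∈ J}.Finite) {a b : G}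
    (hab : a ≠ b) : {g : G | g⁻¹ * a ∈ J ∧ g⁻¹ * b ∈ J}.Finite := by
  have h1 : a⁻¹ * b ≠ 1 := fun h => hab (inv_mul_eq_one.1 h)
  refine ((hJ _ h1).image fun u => a * u⁻¹).subset ?_
  rintro g ⟨hg1, hg2⟩
  refine ⟨g⁻¹ * a, ⟨hg1, ?_⟩, by group⟩
  have : g⁻¹ * a * (a⁻¹ * b) = g⁻¹ * b := by group
  rw [this]
  exact hg2

lemma isClosed_XJ {J : Set G} (hJn : J.Nonempty)
    (hJ : ∀ c : G, c ≠ 1 → {u | u ∈ J ∧ u * c ∈ J}.Finite) : IsClosed (XJ J) := by
  rw [← isOpen_compl_iff, isOpen_iff_mem_nhds]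
  intro x hx
  have hcoord : ∀ a : G, x a = true → {y : G → Bool | y a = true} ∈ 𝓝 x := by
    intro a ha
    have hca : Continuous fun y : G → Bool => y a := continuous_apply a
    have h1 : IsOpen {y : G → Bool | y a = true} :=
      (isOpen_discrete ({true} : Set Bool)).preimage hca
    exact h1.mem_nhds ha
  have h2 : ∃ a b, a ≠ b ∧ x a = true ∧ x b = true := by
    by_contra hcon
    push Not at hcon
    apply hx
    obtain ⟨j, hj⟩ := hJn
    by_cases hex : ∃ a, x a = true
    · obtain ⟨a, ha⟩ := hex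
      refine ⟨a * j⁻¹, fun b hb => ?_⟩
      have hba : a = b := by
        by_contra hne
        exact hcon a b hne ha hb
      rw [← hba]
      simpa using hj
    · exact ⟨1, fun a ha => absurd ⟨a, ha⟩ hex⟩
  obtain ⟨a, b, hab, ha, hb⟩ := h2
  have hfin := thin_finite hJ hab
  have h3 : ∀ g : G, ∃ c, x c = true ∧ g⁻¹ * c ∉ J := by
    intro g
    by_contra hcon
    push Not at hcon
    exact hx ⟨g, hcon⟩
  choose c hc1 hc2 using h3
  have h4 : (⋂ g ∈ {g : G | g⁻¹ * a ∈ J ∧ g⁻¹ * b ∈ J}, {y : G → Bool | y (c g) = true}) ∈ 𝓝 x :=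
    (Filter.biInter_mem hfin).2 fun g _ => hcoord _ (hc1 g)
  filter_upwards [hcoord a ha, hcoord b hb, h4] with y hya hyb hyc
  rintro ⟨g, hg⟩
  have h5 : g ∈ {g : G | g⁻¹ * a ∈ J ∧ g⁻¹ * b ∈ J} := ⟨hg a hya, hg b hyb⟩
  exact hc2 g (hg _ (mem_iInter₂.1 hyc g h5))

/-- The phase space of the system. -/
def Sp (J : Set G) : Type u := {x : G → Bool // x ∈ XJ J}

instance (J : Set G) : TopologicalSpace (Sp J) :=
  inferInstanceAs (TopologicalSpace {x : G → Bool // x ∈ XJ J})

instance (J : Set G) : MulAction G (Sp J) where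
  smul g x := ⟨fun a => x.1 (g⁻¹ * a), by
    obtain ⟨k, hk⟩ := x.2
    refine ⟨g * k, fun a ha => ?_⟩
    have := hk _ ha
    rwa [mul_inv_rev, mul_assoc]⟩
  one_smul x := Subtype.ext (funext fun a => by
    change x.1 (1⁻¹ * a) = x.1 a
    rw [inv_one, one_mul])
  mul_smul g h x := Subtype.ext (funext fun a => by
    change x.1 ((g * h)⁻¹ * a) = x.1 (h⁻¹ * (g⁻¹ * a))
    rw [mul_inv_rev, mul_assoc])

lemma smul_val (J : Set G) (g : G) (x : Sp J) (a : G) : (g • x).1 a = x.1 (g⁻¹ * a) := rfl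

instance (J : Set G) : ContinuousConstSMul G (Sp J) where
  continuous_const_smul g := by
    refine Continuous.subtype_mk ?_ _
    refine continuous_pi fun a => ?_
    exact (continuous_apply (g⁻¹ * a)).comp continuous_subtype_val

instance [Countable G] (J : Set G) : TopologicalSpace.MetrizableSpace (Sp J) :=
  inferInstanceAs (TopologicalSpace.MetrizableSpace {x : G → Bool // x ∈ XJ J})

lemma mem_inter_iff_smul {J' : Set G} {n : ℕ} {J : Set G} {U : Fin n → Set (Sp J)}
    (h : IsIndependenceSet U J') (I : Finset G) (hI : I.Nonempty) (hIJ : (I : Set G) ⊆ J')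
    (σ : G → Fin n) : ∃ x : Sp J, ∀ g ∈ I, g • x ∈ U (σ g) := by
  obtain ⟨x, hx⟩ := h I hI hIJ (fun g => σ g)
  refine ⟨x, fun g hg => ?_⟩
  obtain ⟨y, hy, hyx⟩ := mem_iInter.1 hx ⟨g, hg⟩
  simp only at hyx hy
  rw [← hyx, smul_inv_smul]
  exact hy

lemma coord_nhds {J : Set G} (x : Sp J) (a : G) (ha : x.1 a = true) :
    {y : Sp J | y.1 a = true} ∈ 𝓝 x := by
  have hca : Continuous fun y : Sp J => y.1 a :=
    (continuous_apply a).comp continuous_subtype_val
  have h1 : IsOpen {y : Sp J | y.1 a = true} :=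
    (isOpen_discrete ({true} : Set Bool)).preimage hca
  exact h1.mem_nhds ha

/-- Step A: coordinates of IT-tuples have at most one point in their support. -/
lemma support_subsingleton {J : Set G} (hJ : ∀ c : G, c ≠ 1 → {u | u ∈ J ∧ u * c ∈ J}.Finite)
    {n : ℕ} {x : Fin n → Sp J} (hx : IsITTuple G x) (i : Fin n) {a b : G}
    (ha : (x i).1 a = true) (hb : (x i).1 b = true) : a = b := by
  classical
  by_contra hab
  have hfin := thin_finite hJ hab
  obtain ⟨J', hJ'inf, hJ'⟩ := hx (fun l => if l = i then {y | y.1 a = true ∧ y.1 b = true} else univ)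
    (by
      intro l
      by_cases hl : l = i
      · simp only [if_pos hl]
        rw [hl]
        exact Filter.inter_mem (coord_nhds _ a ha) (coord_nhds _ b hb)
      · simp only [if_neg hl]
        exact Filter.univ_mem)
  obtain ⟨I, hIJ, hIc⟩ := hJ'inf.exists_subset_card_eq (hfin.toFinset.card + 1)
  have hIne : I.Nonempty := by
    rw [← Finset.card_pos, hIc]
    omega
  obtain ⟨y, hy⟩ := mem_inter_iff_smul hJ' I hIne hIJ (fun _ => i)
  obtain ⟨k, hk⟩ := y.2
  have h1 : I.card ≤ hfin.toFinset.card := by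
    refine Finset.card_le_card_of_injOn (fun g => g * k) (fun g hg => ?_) (fun g _ g' _ h => ?_)
    · have h2 := hy g hg
      simp only [if_true, mem_ofPred_eq, smul_val] at h2
      have h3 := hk _ h2.1
      have h4 := hk _ h2.2
      simp only [Finite.coe_toFinset, mem_ofPred_eq, mul_inv_rev, mul_assoc]
      exact ⟨h3, h4⟩
    · exact mul_right_cancel h
  omega

/-- Step B: two different coordinates of an IT-tuple cannot have different points in their
supports. -/
lemma support_eq [Countable G] {J : Set G}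
    (hJ : ∀ c : G, c ≠ 1 → {u | u ∈ J ∧ u * c ∈ J}.Finite)
    {n : ℕ} {x : Fin n → Sp J} (hx : IsITTuple G x) {i j : Fin n} (hij : i ≠ j) {a b : G}
    (ha : (x i).1 a = true) (hb : (x j).1 b = true) : a = b := by
  classical
  by_contra hab
  have hfin := thin_finite hJ hab
  obtain ⟨J', hJ'inf, hJ'⟩ := hx (fun l => if l = i then {y | y.1 a = true} else
    if l = j then {y | y.1 b = true} else univ)
    (by
      intro l
      by_cases hl : l = i
      · simp only [if_pos hl]
        rw [hl]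
        exact coord_nhds _ a ha
      · by_cases hl' : l = j
        · simp only [if_neg hl, if_pos hl']
          rw [hl']
          exact coord_nhds _ b hb
        · simp only [if_neg hl, if_neg hl']
          exact Filter.univ_mem)
  obtain ⟨p, hp⟩ := hJ'inf.nonempty
  obtain ⟨q, hq, hqp⟩ := (hJ'inf.sdiff (finite_singleton p)).nonempty
  have hqp' : q ≠ p := hqp
  have hpq : p⁻¹ * a ≠ q⁻¹ * a := fun h => hqp' (inv_injective (mul_right_cancel h)).symm
  have hY := thin_finite hJ hpq
  set Y : Set G := {k : G | k⁻¹ * (p⁻¹ * a) ∈ J ∧ k⁻¹ * (q⁻¹ * a) ∈ J} with hYdef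
  have hbad : (⋃ k ∈ Y, {g : G | k⁻¹ * (g⁻¹ * a) ∈ J ∧ k⁻¹ * (g⁻¹ * b) ∈ J}).Finite := by
    refine hY.biUnion fun k _ => ?_
    refine (hfin.image fun h => h * k⁻¹).subset ?_
    rintro g ⟨h1, h2⟩
    refine ⟨g * k, ⟨?_, ?_⟩, by group⟩
    · rwa [mul_inv_rev, mul_assoc]
    · rwa [mul_inv_rev, mul_assoc]
  have hR : (J' \ ({p, q} ∪
      ⋃ k ∈ Y, {g : G | k⁻¹ * (g⁻¹ * a) ∈ J ∧ k⁻¹ * (g⁻¹ * b) ∈ J})).Infinite :=
    hJ'inf.sdiff ((Set.toFinite {p, q}).union hbad)
  set R := (J' \ ({p, q} ∪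
      ⋃ k ∈ Y, {g : G | k⁻¹ * (g⁻¹ * a) ∈ J ∧ k⁻¹ * (g⁻¹ * b) ∈ J})) with hRdef
  obtain ⟨e, he⟩ := exists_injective_nat G
  let ρ : G → G := fun k => (hR.natEmbedding R (e k) : G)
  have hρinj : Function.Injective ρ := fun k k' h => he ((hR.natEmbedding R).injective
    (Subtype.ext h))
  have hρR : ∀ k, ρ k ∈ R := fun k => (hR.natEmbedding R (e k)).2
  let σ : G → Fin n := fun g => if g = p ∨ g = q then i else
    if ∃ k, ρ k = g ∧ k⁻¹ * (g⁻¹ * a) ∉ J then i else j
  let I : Finset G := {p, q} ∪ hY.toFinset.image ρ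
  have hIJ : (I : Set G) ⊆ J' := by
    intro g hg
    simp only [I, Finset.coe_union, Finset.coe_insert, Finset.coe_singleton, Finset.coe_image,
      mem_union, mem_insert_iff, mem_singleton_iff, mem_image] at hg
    rcases hg with (rfl | rfl) | ⟨k, -, rfl⟩
    · exact hp
    · exact hq
    · exact (hρR k).1
  obtain ⟨y, hy⟩ := mem_inter_iff_smul hJ' I ⟨p, by simp [I]⟩ hIJ σ
  obtain ⟨k, hk⟩ := y.2
  have hσp : σ p = i := by simp [σ]
  have hσq : σ q = i := by simp [σ]
  have h1 := hy p (by simp [I])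
  have h2 := hy q (by simp [I])
  simp only [hσp, if_true, mem_ofPred_eq, smul_val] at h1
  simp only [hσq, if_true, mem_ofPred_eq, smul_val] at h2
  have hkY : k ∈ Y := ⟨hk _ h1, hk _ h2⟩
  have hg := hy (ρ k) (by
    simp only [I, Finset.mem_union, Finset.mem_image, Finite.mem_toFinset]
    exact Or.inr ⟨k, hkY, rfl⟩)
  have hρk := hρR k
  have hnot : ¬ (ρ k = p ∨ ρ k = q) := fun h => hρk.2 (Or.inl (by
    simpa only [mem_insert_iff, mem_singleton_iff] using h))
  by_cases hc : k⁻¹ * ((ρ k)⁻¹ * a) ∈ J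
  · have hσ : σ (ρ k) = j := by
      simp only [σ, if_neg hnot]
      rw [if_neg]
      rintro ⟨k', hk', hk'2⟩
      rw [hρinj hk'] at hk'2
      exact hk'2 hc
    simp only [hσ, if_neg hij.symm, if_true, mem_ofPred_eq, smul_val] at hg
    exact hρk.2 (Or.inr (mem_iUnion₂.2 ⟨k, hkY, hc, hk _ hg⟩))
  · have hσ : σ (ρ k) = i := by
      simp only [σ, if_neg hnot]
      rw [if_pos ⟨k, rfl, hc⟩]
    simp only [hσ, if_true, mem_ofPred_eq, smul_val] at hg
    exact hc (hk _ hg)

lemma three_tame [Countable G] {J : Set G}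
    (hJ : ∀ c : G, c ≠ 1 → {u | u ∈ J ∧ u * c ∈ J}.Finite) : NTame G (Sp J) 3 := by
  intro x hx
  by_contra hcon
  push Not at hcon
  have key : ∀ i j : Fin 3, i ≠ j → (∃ a, (x i).1 a = true) → ¬ ∃ b, (x j).1 b = true := by
    rintro i j hij ⟨a, ha⟩ ⟨b, hb⟩
    have hab := support_eq hJ hx hij ha hb
    subst hab
    refine hcon i j hij (Subtype.ext (funext fun c => ?_))
    by_cases hc : c = a
    · rw [hc, ha, hb]
    · have h1 : (x i).1 c = false := by
        by_contra h
        exact hc (support_subsingleton hJ hx i (by simpa using h) ha)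
      have h2 : (x j).1 c = false := by
        by_contra h
        exact hc (support_subsingleton hJ hx j (by simpa using h) hb)
      rw [h1, h2]
  have key2 : ∀ i j : Fin 3, i ≠ j → (¬ ∃ a, (x i).1 a = true) → ∃ b, (x j).1 b = true := by
    intro i j hij hi
    by_contra hj
    push Not at hi hj
    refine hcon i j hij (Subtype.ext (funext fun c => ?_))
    have h1 := hi c
    have h2 := hj c
    simp only [Bool.not_eq_true] at h1 h2
    rw [h1, h2]
  by_cases h0 : ∃ a, (x 0).1 a = true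
  · have h1 := key 0 1 (by decide) h0
    have h2 := key 0 2 (by decide) h0
    exact h2 (key2 1 2 (by decide) h1)
  · have h1 := key2 0 1 (by decide) h0
    have h2 := key2 0 2 (by decide) h0
    exact key 1 2 (by decide) h1 h2

/-- Neighbourhoods in `Sp J` contain cylinders. -/
lemma exists_window {J : Set G} {x : Sp J} {U : Set (Sp J)} (hU : U ∈ 𝓝 x) :
    ∃ W : Finset G, ∀ y : Sp J, (∀ a ∈ W, y.1 a = x.1 a) → y ∈ U := by
  obtain ⟨V, hVU, hV, hxV⟩ := mem_nhds_iff.1 hU
  obtain ⟨V', hV', rfl⟩ := isOpen_induced_iff.1 hV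
  obtain ⟨W, u, h1, h2⟩ := isOpen_pi_iff.1 hV' x.1 hxV
  refine ⟨W, fun y hy => hVU (h2 ?_)⟩
  intro a ha
  rw [hy a ha]
  exact (h1 a ha).2

lemma not_tame {J : Set G} (hJinf : J.Infinite)
    (hJ : ∀ c : G, c ≠ 1 → {u | u ∈ J ∧ u * c ∈ J}.Finite) : ¬ NTame G (Sp J) 2 := by
  classical
  intro h
  obtain ⟨j0, hj0⟩ := hJinf.nonempty
  let z0 : Sp J := ⟨fun _ => false, 1, fun a ha => absurd ha (by simp)⟩
  let z1 : Sp J := ⟨fun a => decide (a = 1), j0⁻¹, fun a ha => by
    have : a = 1 := by simpa using ha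
    rw [this]
    simpa using hj0⟩
  have hne : z0 ≠ z1 := by
    intro h
    have := congrFun (congrArg Subtype.val h) 1
    simp [z0, z1] at this
  obtain ⟨i, j, hij, h2⟩ := h ![z0, z1] (by
    intro U hU
    obtain ⟨W0, hW0⟩ := exists_window (hU 0)
    obtain ⟨W1, hW1⟩ := exists_window (hU 1)
    have hfin : (⋃ c ∈ ((W0 ∪ W1).erase 1 : Finset G), {u | u ∈ J ∧ u * c ∈ J}).Finite :=
      (Finset.finite_toSet _).biUnion fun c hc => hJ c (Finset.ne_of_mem_erase hc)
    refine ⟨(fun u => u⁻¹) '' (J \ ⋃ c ∈ ((W0 ∪ W1).erase 1 : Finset G),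
      {u | u ∈ J ∧ u * c ∈ J}), (hJinf.sdiff hfin).image inv_injective.injOn, ?_⟩
    intro I hI hIJ σ
    have hIJ' : ∀ g ∈ I, g⁻¹ ∈ J ∧ ∀ c ∈ W0 ∪ W1, c ≠ 1 → g⁻¹ * c ∉ J := by
      intro g hg
      obtain ⟨u, ⟨hu1, hu2⟩, hug⟩ := hIJ hg
      simp only at hug
      rw [← hug, inv_inv]
      refine ⟨hu1, fun c hc hc1 hcon => hu2 ?_⟩
      exact mem_iUnion₂.2 ⟨c, Finset.mem_erase.2 ⟨hc1, hc⟩, hu1, hcon⟩
    let y : Sp J := ⟨fun u => decide (∃ h : u⁻¹ ∈ I, σ ⟨u⁻¹, h⟩ = 1), 1, fun a ha => by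
      have : ∃ h : a⁻¹ ∈ I, σ ⟨a⁻¹, h⟩ = 1 := by simpa using ha
      obtain ⟨h1, -⟩ := this
      simpa using (hIJ' _ h1).1⟩
    refine ⟨y, mem_iInter.2 fun g => ⟨(g : G) • y, ?_, by simp⟩⟩
    have hg := hIJ' g.1 g.2
    have hy1 : ((g : G) • y).1 1 = decide (σ g = 1) := by
      rw [smul_val, mul_one]
      simp only [y, inv_inv]
      congr 1
      apply propext
      constructor
      · rintro ⟨_, h⟩; exact h
      · intro h; exact ⟨g.2, h⟩
    have hy2 : ∀ c ∈ W0 ∪ W1, c ≠ 1 → ((g : G) • y).1 c = false := by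
      intro c hc hc1
      rw [smul_val]
      simp only [y, decide_eq_false_iff_not]
      rintro ⟨h1, -⟩
      have := (hIJ' _ h1).1
      rw [inv_inv] at this
      exact hg.2 c hc hc1 this
    rcases (show σ g = 0 ∨ σ g = 1 by
      have := (σ g).2
      rcases (show (σ g).1 = 0 ∨ (σ g).1 = 1 by omega) with h | h
      · exact Or.inl (Fin.ext h)
      · exact Or.inr (Fin.ext h)) with h0 | h0
    · rw [h0]
      refine hW0 _ fun a ha => ?_
      change ((g : G) • y).1 a = false
      by_cases ha1 : a = 1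
      · rw [ha1, hy1, h0]
        rfl
      · exact hy2 a (Finset.mem_union_left _ ha) ha1
    · rw [h0]
      refine hW1 _ fun a ha => ?_
      change ((g : G) • y).1 a = decide (a = 1)
      by_cases ha1 : a = 1
      · rw [ha1, hy1, h0]
        simp
      · rw [hy2 a (Finset.mem_union_right _ ha) ha1]
        simp [ha1])
  fin_cases i <;> fin_cases j <;> simp_all

end construction

/-- **Negative answer to Q1**: every countable infinite group `G` has a dynamical system
`(X, φ, G)` (a continuous action on a compact metrizable space) that is 3-tame but not tame. -/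
theorem result (G : Type u) [Group G] [Countable G] [Infinite G] :
    ∃ (X : Type u) (_ : TopologicalSpace X) (_ : CompactSpace X)
      (_ : TopologicalSpace.MetrizableSpace X) (_ : MulAction G X) (_ : ContinuousConstSMul G X),
      NTame G X 3 ∧ ¬ NTame G X 2 := by
  obtain ⟨J, hJinf, hJ⟩ := exists_thin (G := G)
  have hc : CompactSpace (Sp J) :=
    isCompact_iff_compactSpace.1 (isClosed_XJ hJinf.nonempty hJ).isCompact
  exact ⟨Sp J, inferInstance, hc, inferInstance, inferInstance, inferInstance,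
    three_tame hJ, not_tame hJinf hJ⟩

end Pool.Agent.Results.MP_6a4cde_an.ThreeTameNotTame
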